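import Pool.Agent.helper36.YB.Spec

/-! Row TRX of project yb, block Y (MP_ad8ced_nt) -/

set_option autoImplicit false

open Finset
open Pool.Agent.FI Pool.Agent.HK Pool.Agent.BP
open Pool.Agent.CH (nit rgh ll2)
open Pool.Agent.SK (tr0 Th)

noncomputable section

namespace Pool.Agent.YB

private theorem TRX_nn_mul (z w : ℤ × ℤ) : nn (mul8 z w) = nn z * nn w := by
  unfold nn
  rw [← Int.natAbs_mul]
  congr 1
  unfold N8 mul8
  simp only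
  ring

private theorem TRX_nn_cj (z : ℤ × ℤ) : nn (cj z) = nn z := by
  unfold nn N8 cj
  simp only
  congr 1
  ring

private theorem TRX_N8_cj (z : ℤ × ℤ) : N8 (cj z) = N8 z := by
  unfold N8 cj
  simp only
  ring

private theorem TRX_cj_cj (z : ℤ × ℤ) : cj (cj z) = z := by
  unfold cj
  simp

private theorem TRX_cj_mul (z w : ℤ × ℤ) : cj (mul8 z w) = mul8 (cj z) (cj w) := by
  unfold cj mul8
  simp only [Prod.mk.injEq]
  constructor <;> ring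

private theorem TRX_nn_int (p : ℕ) : nn ((p : ℤ), 0) = p ^ 2 := by
  unfold nn N8
  simp only
  have : ((p : ℤ)) ^ 2 - 8 * 0 ^ 2 = ((p ^ 2 : ℕ) : ℤ) := by push_cast; ring
  rw [this]
  exact Int.natAbs_natCast _

private theorem TRX_I1 (q : ℕ) : UX q (I1 q) := by
  refine ⟨?_, ?_, ?_, ?_⟩
  · intro z w _ _
    unfold I1
    rw [TRX_nn_mul]
    by_cases h1 : Nat.Coprime (nn z) q
    · by_cases h2 : Nat.Coprime (nn w) q
      · rw [if_pos (Nat.Coprime.mul_left h1 h2), if_pos h1, if_pos h2, one_mul]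
      · rw [if_neg (fun h => h2 (Nat.coprime_mul_iff_left.1 h).2), if_neg h2, mul_zero]
    · rw [if_neg (fun h => h1 (Nat.coprime_mul_iff_left.1 h).1), if_neg h1, zero_mul]
  · intro u hu
    unfold I1
    rw [if_pos]
    have : nn u = 1 := by unfold nn; rw [hu]; rfl
    rw [this]
    exact Nat.coprime_one_left q
  · intro z _ h
    unfold I1
    rw [if_neg h]
  · intro z _ h
    unfold I1
    rw [if_pos h, norm_one]

private theorem TRX_cc (q : ℕ) (Ψ : ℤ × ℤ → ℂ) (h : UX q Ψ) : UX q (cc2 Ψ) := by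
  obtain ⟨h1, h2, h3, h4⟩ := h
  have hodd : ∀ z : ℤ × ℤ, z.1 % 2 = 1 → (cj z).1 % 2 = 1 := fun z hz => hz
  refine ⟨?_, ?_, ?_, ?_⟩
  · intro z w hz hw
    unfold cc2
    rw [TRX_cj_mul, h1 z w hz hw, h1 (cj z) (cj w) (hodd z hz) (hodd w hw), map_mul]
    ring
  · intro u hu
    unfold cc2
    rw [h2 u hu, h2 (cj u) (by rw [TRX_N8_cj]; exact hu), map_one, one_mul]
  · intro z hz hc
    unfold cc2
    rw [h3 z hz hc, zero_mul]
  · intro z hz hc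
    unfold cc2
    rw [norm_mul, Complex.norm_conj, h4 z hz hc, h4 (cj z) (hodd z hz) (by rw [TRX_nn_cj]; exact hc), one_mul]

private theorem TRX_pi (hTHU : THU_stmt) (p : ℕ) (hp : p.Prime) (h8 : p % 8 = 1 ∨ p % 8 = 7) :
    ∃ z : ℤ × ℤ, nn z = p := by
  have : Fact p.Prime := ⟨hp⟩
  have hp2 : p ≠ 2 := by omega
  obtain ⟨s, hs⟩ := (ZMod.exists_sq_eq_two_iff hp2).2 h8
  have hodd : Odd p := hp.odd_of_ne_two hp2
  obtain ⟨z, hz, -⟩ := hTHU p (2 * (s.val : ℤ)) hodd (by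
    rw [← ZMod.intCast_zmod_eq_zero_iff_dvd]
    push_cast
    rw [ZMod.natCast_zmod_val]
    have e : (2 * s) ^ 2 - 8 = 4 * (s * s - 2) := by ring
    rw [e, ← hs, sub_self, mul_zero])
  exact ⟨z, hz⟩

private theorem TRX_odd (z : ℤ × ℤ) (p : ℕ) (hz : nn z = p) (hp : p % 2 = 1) : z.1 % 2 = 1 := by
  unfold nn N8 at hz
  have h1 : (z.1 ^ 2 - 8 * z.2 ^ 2) % 2 = 1 := by omega
  have h2 : (z.1 ^ 2) % 2 = 1 := by omega
  rcases Int.emod_two_eq_zero_or_one z.1 with h | h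
  · exfalso
    have : (z.1 ^ 2) % 2 = 0 := by
      rw [pow_two, Int.mul_emod, h]
      rfl
    omega
  · exact h

/-- the value at the norm -/
private theorem TRX_norm (q : ℕ) (Φ : ℤ × ℤ → ℂ) (hΦ : UX q Φ) (z : ℤ × ℤ) (p : ℕ) (hz : nn z = p) (hp : p % 2 = 1) :
    Φ z * Φ (cj z) = Φ ((p : ℤ), 0) := by
  have ho := TRX_odd z p hz hp
  rw [← hΦ.1 z (cj z) ho ho]
  have h1 : mul8 z (cj z) = (N8 z, 0) := by
    unfold mul8 cj N8
    simp only [Prod.mk.injEq]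
    constructor <;> ring
  rw [h1]
  have h2 : N8 z = p ∨ N8 z = -p := by
    unfold nn at hz
    omega
  rcases h2 with h2 | h2
  · rw [h2]
  · rw [h2]
    have h3 : ((-(p : ℤ), 0) : ℤ × ℤ) = mul8 (-1, 0) ((p : ℤ), 0) := by
      unfold mul8
      simp
    rw [h3, hΦ.1 (-1, 0) ((p : ℤ), 0) (by decide) (by show (p : ℤ) % 2 = 1; omega),
      hΦ.2.1 (-1, 0) (by decide), one_mul]

private theorem TRX_one (hRSX : RSX_stmt) (hRIX : RIX_stmt) (hCVR : CVR_stmt) (hCME : CME_stmt)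
    (q : ℕ) (Φ : ℤ × ℤ → ℂ) (hΦ : UX q Φ) (π : ℕ → ℤ × ℤ)
    (hπ : ∀ p : ℕ, p.Prime → (p % 8 = 1 ∨ p % 8 = 7) → nn (π p) = p) (s : ℕ → ℂ)
    (hs : ∀ p : ℕ, p.Prime → (p % 8 = 3 ∨ p % 8 = 5) → ¬ p ∣ q → s p ^ 2 = Φ ((p : ℤ), 0)) :
    ∃ a b : ℕ → ℂ, CM a ∧ CM b ∧
      (∀ p : ℕ, p.Prime → (p % 8 = 1 ∨ p % 8 = 7) → ¬ p ∣ q →
        a p = Φ (π p) ∧ b p = Φ (cj (π p)) ∧ ‖Φ (π p)‖ = 1 ∧ ‖Φ (cj (π p))‖ = 1) ∧
      (∀ p : ℕ, p.Prime → (p % 8 = 3 ∨ p % 8 = 5) → ¬ p ∣ q → a p = s p ∧ b p = -s p ∧ ‖s p‖ = 1) ∧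
      (∀ p : ℕ, p.Prime → (p = 2 ∨ p ∣ q) → a p = 0 ∧ b p = 0) ∧
      ∀ n : ℕ, 1 ≤ n → rf Φ n = cv a b n := by
  classical
  have hMU : MU Φ := ⟨hΦ.1, hΦ.2.1⟩
  have hnorm : ∀ p : ℕ, p.Prime → (p % 8 = 1 ∨ p % 8 = 7) → ¬ p ∣ q → ‖Φ (π p)‖ = 1 := by
    intro p hp h8 hd
    have h1 := hπ p hp h8
    refine hΦ.2.2.2 (π p) (TRX_odd _ p h1 (by omega)) ?_
    rw [h1]
    exact (Nat.Prime.coprime_iff_not_dvd hp).2 hd
  have hnorm' : ∀ p : ℕ, p.Prime → (p % 8 = 1 ∨ p % 8 = 7) → ¬ p ∣ q → ‖Φ (cj (π p))‖ = 1 := by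
    intro p hp h8 hd
    have h1 := hπ p hp h8
    refine hΦ.2.2.2 (cj (π p)) (TRX_odd (π p) p h1 (by omega)) ?_
    rw [TRX_nn_cj, h1]
    exact (Nat.Prime.coprime_iff_not_dvd hp).2 hd
  have hsn : ∀ p : ℕ, p.Prime → (p % 8 = 3 ∨ p % 8 = 5) → ¬ p ∣ q → ‖s p‖ = 1 := by
    intro p hp h8 hd
    have h1 : ‖Φ ((p : ℤ), 0)‖ = 1 := by
      refine hΦ.2.2.2 ((p : ℤ), 0) (by show (p : ℤ) % 2 = 1; omega) ?_
      rw [TRX_nn_int]
      exact Nat.Coprime.pow_left 2 ((Nat.Prime.coprime_iff_not_dvd hp).2 hd)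
    rw [← hs p hp h8 hd, norm_pow] at h1
    exact (pow_eq_one_iff_of_nonneg (norm_nonneg _) (by norm_num)).1 h1
  obtain ⟨a, ha, ha'⟩ := hCME (fun p => if p.Prime ∧ ¬ p ∣ q then
      (if p % 8 = 1 ∨ p % 8 = 7 then Φ (π p) else if p % 8 = 3 ∨ p % 8 = 5 then s p else 0) else 0) (by
    intro p
    split_ifs with h1 h2 h3
    · exact (hnorm p h1.1 h2 h1.2).le
    · exact (hsn p h1.1 h3 h1.2).le
    · simp
    · simp)
  obtain ⟨b, hb, hb'⟩ := hCME (fun p => if p.Prime ∧ ¬ p ∣ q then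
      (if p % 8 = 1 ∨ p % 8 = 7 then Φ (cj (π p)) else
        if p % 8 = 3 ∨ p % 8 = 5 then -s p else 0) else 0) (by
    intro p
    split_ifs with h1 h2 h3
    · exact (hnorm' p h1.1 h2 h1.2).le
    · rw [norm_neg]
      exact (hsn p h1.1 h3 h1.2).le
    · simp
    · simp)
  have k1 : ∀ p : ℕ, p.Prime → (p % 8 = 1 ∨ p % 8 = 7) → ¬ p ∣ q →
        a p = Φ (π p) ∧ b p = Φ (cj (π p)) ∧ ‖Φ (π p)‖ = 1 ∧ ‖Φ (cj (π p))‖ = 1 := by
    intro p hp h8 hd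
    refine ⟨?_, ?_, hnorm p hp h8 hd, hnorm' p hp h8 hd⟩
    · rw [ha' p hp, if_pos ⟨hp, hd⟩, if_pos h8]
    · rw [hb' p hp, if_pos ⟨hp, hd⟩, if_pos h8]
  have k2 : ∀ p : ℕ, p.Prime → (p % 8 = 3 ∨ p % 8 = 5) → ¬ p ∣ q → a p = s p ∧ b p = -s p ∧ ‖s p‖ = 1 := by
    intro p hp h8 hd
    refine ⟨?_, ?_, hsn p hp h8 hd⟩
    · rw [ha' p hp, if_pos ⟨hp, hd⟩, if_neg (by omega), if_pos h8]
    · rw [hb' p hp, if_pos ⟨hp, hd⟩, if_neg (by omega), if_pos h8]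
  have k3 : ∀ p : ℕ, p.Prime → (p = 2 ∨ p ∣ q) → a p = 0 ∧ b p = 0 := by
    intro p hp h
    rcases h with rfl | h
    · refine ⟨?_, ?_⟩
      · rw [ha' 2 hp]
        split_ifs with h1 h2 h3
        · omega
        · omega
        · rfl
        · rfl
      · rw [hb' 2 hp]
        split_ifs with h1 h2 h3
        · omega
        · omega
        · rfl
        · rfl
    · refine ⟨?_, ?_⟩
      · rw [ha' p hp, if_neg (fun hc => hc.2 h)]
      · rw [hb' p hp, if_neg (fun hc => hc.2 h)]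
  refine ⟨a, b, ha, hb, k1, k2, k3, ?_⟩
  intro n
  induction n using Nat.strong_induction_on with
  | _ n ih =>
    intro hn
    rcases Nat.lt_or_ge 1 n with h1 | h1
    · have hp := Nat.minFac_prime (show n ≠ 1 by omega)
      obtain ⟨p, hpd⟩ : ∃ p : ℕ, p = n.minFac := ⟨_, rfl⟩
      rw [← hpd] at hp
      obtain ⟨m, hm⟩ : p ∣ n := hpd ▸ Nat.minFac_dvd n
      have hm1 : 1 ≤ m := by
        rcases Nat.eq_zero_or_pos m with h | h
        · rw [h, mul_zero] at hm; omega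
        · exact h
      have hmn : m < n := by
        rw [hm]
        have := hp.two_le
        nlinarith
      have hif : p ∣ m → rf Φ (m / p) = cv a b (m / p) := by
        intro hdv
        apply ih (m / p) (lt_of_le_of_lt (Nat.div_le_self _ _) hmn)
        exact Nat.div_pos (Nat.le_of_dvd hm1 hdv) hp.pos
      rw [hm, hCVR a b ha hb p m hp hm1, ← ih m hmn hm1]
      by_cases hr : p = 2 ∨ p ∣ q
      · rw [((hRIX q Φ hΦ).2 p m hp hm1).1 hr, (k3 p hp hr).1, (k3 p hp hr).2]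
        ring
      · push Not at hr
        have hodd : p % 2 = 1 := hp.eq_two_or_odd.resolve_left hr.1
        by_cases h8 : p % 8 = 1 ∨ p % 8 = 7
        · obtain ⟨e1, e2, e3, e4⟩ := k1 p hp h8 hr.2
          rw [hRSX Φ hMU p (π p) hp hr.1 (hπ p hp h8) m hm1, e1, e2,
            TRX_norm q Φ hΦ (π p) p (hπ p hp h8) hodd]
          by_cases hdv : p ∣ m
          · rw [if_pos hdv, if_pos hdv, hif hdv]
          · rw [if_neg hdv, if_neg hdv, mul_zero]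
        · have h8' : p % 8 = 3 ∨ p % 8 = 5 := by omega
          obtain ⟨e1, e2, e3⟩ := k2 p hp h8' hr.2
          rw [((hRIX q Φ hΦ).2 p m hp hm1).2 h8', e1, e2, ← hs p hp h8' hr.2]
          by_cases hdv : p ∣ m
          · rw [if_pos hdv, if_pos hdv, hif hdv]
            ring
          · rw [if_neg hdv, if_neg hdv]
            ring
    · have h2 : n = 1 := by omega
      subst h2
      rw [(hRIX q Φ hΦ).1]
      unfold cv
      rw [Nat.divisorsAntidiagonal_one, sum_singleton, ha.2.1, hb.2.1, one_mul]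

theorem TRX (hRSX : RSX_stmt) (hRIX : RIX_stmt) (hCVR : CVR_stmt) (hCME : CME_stmt) (hTHU : THU_stmt) : TRX_stmt := by
  intro q Ψ _ hΨ
  have hex : ∀ p : ℕ, ∃ z : ℤ × ℤ, p.Prime → (p % 8 = 1 ∨ p % 8 = 7) → nn z = p := by
    intro p
    by_cases h : p.Prime ∧ (p % 8 = 1 ∨ p % 8 = 7)
    · obtain ⟨z, hz⟩ := TRX_pi hTHU p h.1 h.2
      exact ⟨z, fun _ _ => hz⟩
    · exact ⟨(1, 0), fun h1 h2 => absurd ⟨h1, h2⟩ h⟩
  choose π hπ using hex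
  have hsq : ∀ p : ℕ, ∃ s : ℂ, s ^ 2 = Ψ ((p : ℤ), 0) := fun p => IsAlgClosed.exists_pow_nat_eq _ (by norm_num)
  choose s hs using hsq
  have hcop : ∀ p : ℕ, p.Prime → ¬ p ∣ q → Nat.Coprime (nn ((p : ℤ), 0)) q := by
    intro p hp hd
    rw [TRX_nn_int]
    exact Nat.Coprime.pow_left 2 ((Nat.Prime.coprime_iff_not_dvd hp).2 hd)
  obtain ⟨k₁, k₂, c1, c2, c3, c4, c5, c6⟩ := TRX_one hRSX hRIX hCVR hCME q (I1 q) (TRX_I1 q) π hπ (fun _ => 1) (by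
    intro p hp _ hd
    unfold I1
    rw [if_pos (hcop p hp hd), one_pow])
  obtain ⟨g₁, g₂, d1, d2, d3, d4, d5, d6⟩ := TRX_one hRSX hRIX hCVR hCME q Ψ hΨ π hπ s (fun p _ _ _ => hs p)
  obtain ⟨h₁, h₂, f1, f2, f3, f4, f5, f6⟩ :=
    TRX_one hRSX hRIX hCVR hCME q (cc2 Ψ) (TRX_cc q Ψ hΨ) π hπ (fun _ => 1) (by
    intro p hp h8 hd
    unfold cc2
    have h1 : cj ((p : ℤ), 0) = ((p : ℤ), 0) := by unfold cj; simp
    have h2 : ‖Ψ ((p : ℤ), 0)‖ = 1 := hΨ.2.2.2 ((p : ℤ), 0) (by show (p : ℤ) % 2 = 1; omega) (hcop p hp hd)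
    rw [h1, Complex.mul_conj, Complex.normSq_eq_norm_sq, h2]
    simp)
  have hkey : ∀ p : ℕ, p.Prime →
      (k₁ p = 1 ∧ k₂ p = 1 ∧ (p % 8 = 1 ∨ p % 8 = 7) ∧ ‖g₁ p‖ = 1 ∧ ‖g₂ p‖ = 1 ∧
        h₁ p = g₁ p * (starRingEnd ℂ) (g₂ p) ∧ h₂ p = g₂ p * (starRingEnd ℂ) (g₁ p)) ∨
      (k₁ p = 1 ∧ k₂ p = -1 ∧ ‖g₁ p‖ = 1 ∧ g₂ p = -g₁ p ∧ h₁ p = 1 ∧ h₂ p = -1) ∨
      (k₁ p = 0 ∧ k₂ p = 0 ∧ g₁ p = 0 ∧ g₂ p = 0 ∧ h₁ p = 0 ∧ h₂ p = 0) := by
    intro p hp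
    by_cases hr : p = 2 ∨ p ∣ q
    · right; right
      exact ⟨(c5 p hp hr).1, (c5 p hp hr).2, (d5 p hp hr).1, (d5 p hp hr).2, (f5 p hp hr).1, (f5 p hp hr).2⟩
    · push Not at hr
      have hodd : p % 2 = 1 := hp.eq_two_or_odd.resolve_left hr.1
      by_cases h8 : p % 8 = 1 ∨ p % 8 = 7
      · left
        obtain ⟨x1, x2, -, -⟩ := c3 p hp h8 hr.2
        obtain ⟨y1, y2, y3, y4⟩ := d3 p hp h8 hr.2
        obtain ⟨z1, z2, -, -⟩ := f3 p hp h8 hr.2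
        have hc : Nat.Coprime (nn (π p)) q := by
          rw [hπ p hp h8]
          exact (Nat.Prime.coprime_iff_not_dvd hp).2 hr.2
        have hI : I1 q (π p) = 1 := by
          unfold I1
          rw [if_pos hc]
        have hI' : I1 q (cj (π p)) = 1 := by
          unfold I1
          rw [if_pos (by rw [TRX_nn_cj]; exact hc)]
        refine ⟨?_, ?_, h8, ?_, ?_, ?_, ?_⟩
        · rw [x1, hI]
        · rw [x2, hI']
        · rw [y1, y3]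
        · rw [y2, y4]
        · rw [z1, y1, y2]; rfl
        · rw [z2, y1, y2]
          unfold cc2
          rw [TRX_cj_cj]
      · have h8' : p % 8 = 3 ∨ p % 8 = 5 := by omega
        right; left
        obtain ⟨x1, x2, -⟩ := c4 p hp h8' hr.2
        obtain ⟨y1, y2, y3⟩ := d4 p hp h8' hr.2
        obtain ⟨z1, z2, -⟩ := f4 p hp h8' hr.2
        exact ⟨x1, x2, by rw [y1, y3], by rw [y1, y2], z1, z2⟩
  refine ⟨k₁, k₂, g₁, g₂, h₁, h₂, c1, c2, d1, d2, f1, f2, ?_, ?_, fun n hn => ⟨c6 n hn, d6 n hn, f6 n hn⟩⟩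
  · intro p hp
    rcases hkey p hp with ⟨e1, e2, _, e3⟩ | h | h
    · exact Or.inl ⟨e1, e2, e3⟩
    · exact Or.inr (Or.inl h)
    · exact Or.inr (Or.inr h)
  · intro p hp
    rcases hkey p hp with ⟨e1, e2, h8, -⟩ | ⟨e1, e2, -⟩ | ⟨e1, e2, -⟩
    · rw [if_pos h8, e1, e2]
      norm_num
    · rw [e1, e2, add_neg_cancel, norm_zero]
      split_ifs <;> norm_num
    · rw [e1, e2, add_zero, norm_zero]
      split_ifs <;> norm_num

end Pool.Agent.YB
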